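import Pool.Agent.Lib.MP_6aa000_nt.H77.Main

namespace Pool.Agent.Results.MP_6aa000_nt.DivisibleExponents

open Pool.Agent.Lib.MP_6aa000_nt

theorem result : ∃ η : ℝ, 0 < η ∧ ∃ k₀ : ℕ, ∀ k n e m : ℕ, k₀ ≤ k → 0 < n → 0 < m →
    (∀ d, 1 ≤ d → d ≤ k → d ∣ n) → (∀ d, 1 ≤ d → d ≤ k ^ 2 → d ∣ e) →
    (((n * m).primeFactors.filter (· ≤ k ^ 2)).card : ℝ) ≤ (k : ℝ) ^ (1 + η) →
    ∀ x y : ℤ, 1 + x ^ 2 * y ^ 3 ≠ 2 ^ n * (m : ℤ) ^ e := by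
  obtain ⟨η, η0, h⟩ := H77.exists_prime
  obtain ⟨k₀, h⟩ := Filter.eventually_atTop.1 h
  refine ⟨η, η0, k₀, fun k n e m hk hn hm h1 h2 h3 => ?_⟩
  obtain ⟨p, p1, p2, p3, p4, p5, p6⟩ := h k hk n (n * m) (by positivity) h1 h3
  have := p1.two_le
  exact H77.no_sol p1 p2 p3 p5 p6 (h2 p p1.pos p4) (h2 _ (by omega) (by omega))

end Pool.Agent.Results.MP_6aa000_nt.DivisibleExponents
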