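import Pool.Agent.Lib.MP_6aa000_nt.RatExp

open Real

namespace Pool.Agent.Results.MP_6aa000_nt.NearUnits

theorem result (t : ℕ) (a b : ℚ) (hab : 3 * a ≠ 2 * b) (θ : ℝ) (hθ : IsAlgebraic ℚ θ)
    (hθ0 : 0 < θ) (A ε : ℝ) (hε : 0 < ε) :
    {p : ℤ × ℤ | p.1 ≠ 0 ∧ p.2 ≠ 0 ∧
      (∀ q ∈ Nat.primeFactors (1 + p.1 ^ 2 * p.2 ^ 3).natAbs, q ≤ t) ∧
      ∃ w₁ w₂ : ℕ, w₁ ≠ 0 ∧ w₂ ≠ 0 ∧ (∀ q ∈ Nat.primeFactors (w₁ * w₂), q ≤ t) ∧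
        (w₁ * w₂ : ℝ) ≤ (|(p.1 : ℝ)| ^ 2 * |(p.2 : ℝ)| ^ 3) ^ A ∧
        |(|(p.1 : ℝ)| ^ (a : ℝ) * |(p.2 : ℝ)| ^ (b : ℝ)) / (θ * (w₁ / w₂)) - 1| ≤
          exp (-(log |(p.1 : ℝ)| * log |(p.2 : ℝ)| / log (|(p.1 : ℝ)| ^ 2 * |(p.2 : ℝ)| ^ 3)) -
            ε * log (|(p.1 : ℝ)| ^ 2 * |(p.2 : ℝ)| ^ 3))}.Finite :=
  Pool.Agent.Lib.MP_6aa000_nt.near_units_rat t a b hab θ hθ hθ0 A ε hε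

end Pool.Agent.Results.MP_6aa000_nt.NearUnits
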