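import Pool.Agent.Lib.MP_6aa000_nt.NW.Fin

namespace Pool.Agent.Results.MP_6aa000_nt.NonWieferich

theorem result : ∃ X₀ : ℕ, ∀ X : ℕ, X₀ ≤ X → (X : ℝ) / (200 * Real.log X) ≤
    ({p : ℕ | p ≤ X ∧ p.Prime ∧ ¬ p ^ 2 ∣ 2 ^ (p - 1) - 1 ∧
      ∀ n : ℕ, p - 1 ∣ n → ¬ p ∣ n → ∀ x y : ℤ, 1 + x ^ 2 * y ^ 3 ≠ 2 ^ n}.ncard : ℝ) := by
  obtain ⟨X₀, h⟩ := Filter.eventually_atTop.1 Pool.Agent.Lib.MP_6aa000_nt.NW.count_nw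
  refine ⟨X₀, fun X hX => (h X hX).trans ?_⟩
  rw [Nat.cast_le, ← Set.ncard_coe_finset]
  refine Set.ncard_le_ncard (fun p hp => ?_) ((Set.finite_Iic X).subset fun p hp => hp.1)
  obtain ⟨h1, h2, h3, h4⟩ := Finset.mem_filter.1 (Finset.mem_coe.1 hp)
  exact ⟨(Finset.mem_Icc.1 h1).2, h2, h4,
    Pool.Agent.Lib.MP_6aa000_nt.NW.not_powerful p h2 h3 h4⟩

end Pool.Agent.Results.MP_6aa000_nt.NonWieferich
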