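import Pool.Agent.FS.RankDrop.Main

namespace Pool.Agent.Results.MP_6aa000_nt.RankDrop

theorem result : ∃ η : ℝ, 0 < η ∧ ∃ k₀ : ℕ, ∀ k : ℕ, k₀ ≤ k →
    ∀ (s : ℕ) (u : Fin s → ℕ) (c : Fin s → ℤ) (j : ℤ),
      (∀ i, 0 < u i) → (∀ i, ∃ x y : ℤ, 1 + x ^ 2 * y ^ 3 = u i) →
      (∀ i d, 1 ≤ d → d ≤ k → ∃ z : ℕ, u i = z ^ d) →
      (∀ i, Real.log (u i) ≤ Real.exp ((k : ℝ) ^ (1 + η))) →
      ((∏ i, u i).primeFactors.card : ℝ) ≤ (k : ℝ) ^ η →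
      ∏ i, (u i : ℚ) ^ c i = 2 ^ j → j = 0 :=
  Pool.Agent.FS.RankDrop.main

end Pool.Agent.Results.MP_6aa000_nt.RankDrop
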